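import Mathlib

/-! Two elementary consequences of differential inequalities. -/

namespace Pool.Agent.Lib.MP_69e6d0_co

open Real Set

lemma rolle_aux {g g1 : ℝ → ℝ} {a b u v : ℝ} (h : ∀ x ∈ Icc a b, HasDerivAt g (g1 x) x)
    (hu : a ≤ u) (huv : u < v) (hv : v ≤ b) (e : g u = g v) : ∃ c ∈ Ioo u v, g1 c = 0 :=
  exists_hasDerivAt_eq_zero huv
    (fun x hx => (h x ⟨hu.trans hx.1, hx.2.trans hv⟩).continuousAt.continuousWithinAt) e
    fun x hx => h x ⟨hu.trans hx.1.le, hx.2.le.trans hv⟩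

lemma third_diff {f f1 f2 f3 : ℝ → ℝ} {a b c d : ℝ} (hab : a < b) (hbc : b < c) (hcd : c < d)
    (h1 : ∀ x ∈ Icc a d, HasDerivAt f (f1 x) x) (h2 : ∀ x ∈ Icc a d, HasDerivAt f1 (f2 x) x)
    (h3 : ∀ x ∈ Icc a d, HasDerivAt f2 (f3 x) x) (hneg : ∀ x ∈ Icc a d, f3 x < 0) :
    0 < ((b - a) * (c - a) * (d - a))⁻¹ * f a + (-((b - a) * (c - b) * (d - b))⁻¹) * f b +
      ((c - a) * (c - b) * (d - c))⁻¹ * f c + (-((d - a) * (d - b) * (d - c))⁻¹) * f d := by
  have n1 : b - a ≠ 0 := by linarith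
  have n2 : c - a ≠ 0 := by linarith
  have n3 : d - a ≠ 0 := by linarith
  have n4 : c - b ≠ 0 := by linarith
  have n5 : d - b ≠ 0 := by linarith
  have n6 : d - c ≠ 0 := by linarith
  set wa := ((b - a) * (c - a) * (d - a))⁻¹ * f a with hwa
  set wb := (-((b - a) * (c - b) * (d - b))⁻¹) * f b with hwb
  set wc := ((c - a) * (c - b) * (d - c))⁻¹ * f c with hwc
  set wd := (-((d - a) * (d - b) * (d - c))⁻¹) * f d with hwd
  set D := wa + wb + wc + wd with hD
  set C := wa * (b + c + d) + wb * (a + c + d) + wc * (a + b + d) + wd * (a + b + c) with hC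
  set B := wa * (b * c + b * d + c * d) + wb * (a * c + a * d + c * d) +
    wc * (a * b + a * d + b * d) + wd * (a * b + a * c + b * c) with hB
  set A := wa * (b * c * d) + wb * (a * c * d) + wc * (a * b * d) + wd * (a * b * c) with hA
  let g : ℝ → ℝ := fun x => f x + (D * x ^ 3 - C * x ^ 2 + B * x - A)
  let g1 : ℝ → ℝ := fun x => f1 x + (3 * D * x ^ 2 - 2 * C * x + B)
  let g2 : ℝ → ℝ := fun x => f2 x + (6 * D * x - 2 * C)
  let g3 : ℝ → ℝ := fun x => f3 x + 6 * D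
  have d1 : ∀ x ∈ Icc a d, HasDerivAt g (g1 x) x := fun x hx =>
    ((h1 x hx).add ((((((hasDerivAt_id x).pow 3).const_mul D).sub
      (((hasDerivAt_id x).pow 2).const_mul C)).add
      ((hasDerivAt_id x).const_mul B)).sub_const A)).congr_deriv (by simp [g1]; ring)
  have d2 : ∀ x ∈ Icc a d, HasDerivAt g1 (g2 x) x := fun x hx =>
    ((h2 x hx).add (((((hasDerivAt_id x).pow 2).const_mul (3 * D)).sub
      ((hasDerivAt_id x).const_mul (2 * C))).add_const B)).congr_deriv (by simp [g2]; ring)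
  have d3 : ∀ x ∈ Icc a d, HasDerivAt g2 (g3 x) x := fun x hx =>
    ((h3 x hx).add (((hasDerivAt_id x).const_mul (6 * D)).sub_const (2 * C))).congr_deriv
      (by simp [g3])
  have key : ∀ x, g x = f x + (wa * ((x - b) * (x - c) * (x - d)) + wb * ((x - a) * (x - c) * (x - d))
      + wc * ((x - a) * (x - b) * (x - d)) + wd * ((x - a) * (x - b) * (x - c))) := by
    intro x; simp only [g, hD, hC, hB, hA]; ring
  have ea : g a = 0 := by rw [key, hwa]; field_simp; ring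
  have eb : g b = 0 := by rw [key, hwb]; field_simp; ring
  have ec : g c = 0 := by rw [key, hwc]; field_simp; ring
  have ed : g d = 0 := by rw [key, hwd]; field_simp; ring
  obtain ⟨p, hp, ep⟩ := rolle_aux d1 le_rfl hab (by linarith) (ea.trans eb.symm)
  obtain ⟨q, hq, eq⟩ := rolle_aux d1 hab.le hbc hcd.le (eb.trans ec.symm)
  obtain ⟨r, hr, er⟩ := rolle_aux d1 (by linarith) hcd le_rfl (ec.trans ed.symm)
  obtain ⟨u, hu, eu⟩ := rolle_aux d2 hp.1.le (hp.2.trans hq.1) (by linarith [hq.2])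
    (ep.trans eq.symm)
  obtain ⟨v, hv, ev⟩ := rolle_aux d2 (by linarith [hq.1]) (hq.2.trans hr.1) hr.2.le
    (eq.trans er.symm)
  obtain ⟨w, hw, ew⟩ := rolle_aux d3 (by linarith [hp.1, hu.1]) (hu.2.trans hv.1)
    (by linarith [hv.2, hr.2]) (eu.trans ev.symm)
  have := hneg w ⟨by linarith [hp.1, hu.1, hw.1], by linarith [hw.2, hv.2, hr.2]⟩
  simp only [g3] at ew
  linarith

lemma sturm {f f1 f2 : ℝ → ℝ} {p ε : ℝ} (hε : 0 < ε) (hε' : ε ≤ 1 / 2)
    (h1 : ∀ x ∈ Icc (p - ε) (p + ε), HasDerivAt f (f1 x) x)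
    (h2 : ∀ x ∈ Icc (p - ε) (p + ε), HasDerivAt f1 (f2 x) x)
    (hneg : ∀ x ∈ Icc (p - ε) (p + ε), f2 x + 4 * f x < 0) :
    f (p - ε) + f (p + ε) < 2 * cos (2 * ε) * f p := by
  have hc : ∀ u ∈ Icc 0 ε, 0 < cos (2 * u) := fun u hu =>
    cos_pos_of_mem_Ioo ⟨by linarith [hu.1, pi_pos], by linarith [hu.2, pi_gt_three]⟩
  have m1 : ∀ u ∈ Icc 0 ε, p + u ∈ Icc (p - ε) (p + ε) := fun u hu =>
    ⟨by linarith [hu.1], by linarith [hu.2]⟩
  have m2 : ∀ u ∈ Icc 0 ε, p - u ∈ Icc (p - ε) (p + ε) := fun u hu =>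
    ⟨by linarith [hu.2], by linarith [hu.1]⟩
  let h : ℝ → ℝ := fun u => f (p - u) + f (p + u)
  let h' : ℝ → ℝ := fun u => -f1 (p - u) + f1 (p + u)
  have dh : ∀ u ∈ Icc 0 ε, HasDerivAt h (h' u) u := fun u hu =>
    ((h1 _ (m2 u hu)).comp_const_sub p u).add ((h1 _ (m1 u hu)).comp_const_add p u)
  have dh' : ∀ u ∈ Icc 0 ε, HasDerivAt h' (f2 (p - u) + f2 (p + u)) u := fun u hu =>
    ((((h2 _ (m2 u hu)).comp_const_sub p u).neg).add
      ((h2 _ (m1 u hu)).comp_const_add p u)).congr_deriv (by ring)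
  have dc : ∀ u : ℝ, HasDerivAt (fun u => cos (2 * u)) (-sin (2 * u) * 2) u := fun u =>
    (((hasDerivAt_id u).const_mul 2).cos).congr_deriv (by simp)
  have ds : ∀ u : ℝ, HasDerivAt (fun u => sin (2 * u)) (cos (2 * u) * 2) u := fun u =>
    (((hasDerivAt_id u).const_mul 2).sin).congr_deriv (by simp)
  let w : ℝ → ℝ := fun u => h' u * cos (2 * u) + 2 * (h u * sin (2 * u))
  have dw : ∀ u ∈ Icc 0 ε, HasDerivAt w
      ((f2 (p - u) + 4 * f (p - u) + (f2 (p + u) + 4 * f (p + u))) * cos (2 * u)) u := fun u hu =>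
    (((dh' u hu).mul (dc u)).add (((dh u hu).mul (ds u)).const_mul 2)).congr_deriv
      (by simp only [h]; ring)
  have aw : StrictAntiOn w (Icc 0 ε) := by
    apply strictAntiOn_of_deriv_neg (convex_Icc _ _)
      fun u hu => (dw u hu).continuousAt.continuousWithinAt
    intro u hu
    have hu' := interior_subset hu
    rw [(dw u hu').deriv]
    exact mul_neg_of_neg_of_pos (by linarith [hneg _ (m1 u hu'), hneg _ (m2 u hu')]) (hc u hu')
  have w0 : w 0 = 0 := by simp [w, h']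
  have dq : ∀ u ∈ Icc 0 ε, HasDerivAt (fun u => h u / cos (2 * u)) (w u / cos (2 * u) ^ 2) u :=
    fun u hu => ((dh u hu).div (dc u) (hc u hu).ne').congr_deriv (by simp only [w]; ring)
  have aq : StrictAntiOn (fun u => h u / cos (2 * u)) (Icc 0 ε) := by
    apply strictAntiOn_of_deriv_neg (convex_Icc _ _)
      fun u hu => (dq u hu).continuousAt.continuousWithinAt
    intro u hu
    have hu' := interior_subset hu
    rw [interior_Icc] at hu
    rw [(dq u hu').deriv]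
    have := aw (left_mem_Icc.mpr hε.le) hu' hu.1
    exact div_neg_of_neg_of_pos (by linarith) (pow_pos (hc u hu') 2)
  have := aq (left_mem_Icc.mpr hε.le) (right_mem_Icc.mpr hε.le) hε
  simp only [h, mul_zero, cos_zero, div_one, sub_zero, add_zero] at this
  rw [div_lt_iff₀ (hc ε (right_mem_Icc.mpr hε.le))] at this
  linarith

end Pool.Agent.Lib.MP_69e6d0_co
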