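import Pool.Agent.Lib.MP_55cb2c_co.Thm1
import Pool.Agent.Lib.MP_55cb2c_co.Shape

/-! Diameter of the curve and the contraction estimate. -/

namespace Pool.Agent.Lib.MP_69e6d0_co

open Real Set MeasureTheory Pool.Agent.Lib.MP_55cb2c_co

lemma dd_le_one {x : ℂ} (hx : x ∈ TT) {s : ℝ} (hs : s ∈ Icc 0 (π / 3)) : dd x s ≤ 1 := by
  have hpi := pi_pos
  obtain ⟨-, h2, h3⟩ := mem_TT.mp hx
  have a2 : dd x 0 ^ 2 ≤ 1 := by unfold dd; nlinarith [dist_nonneg (x := x) (y := yy 0)]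
  have a3 : dd x (π / 3) ^ 2 ≤ 1 := by
    unfold dd; nlinarith [dist_nonneg (x := x) (y := yy (π / 3))]
  rw [dd_sq] at a2 a3
  simp only [pp, cos_zero, sin_zero, cos_pi_div_three, sin_pi_div_three] at a2 a3
  have s0 : 0 ≤ sin s := sin_nonneg_of_nonneg_of_le_pi hs.1 (by linarith [hs.2])
  have c0 : 1 / 2 ≤ cos s := by
    rw [← cos_pi_div_three]
    exact cos_le_cos_of_nonneg_of_le_pi hs.1 (by linarith) hs.2
  have s1 : sin s ≤ √3 / 2 := by
    rw [← sin_pi_div_three]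
    exact sin_le_sin_of_le_of_le_pi_div_two (by linarith [hs.1]) (by linarith) hs.2
  have hr := r3_sq
  have hr' := r3_gt
  have sc := sin_sq_add_cos_sq s
  have c1 := cos_le_one s
  have b1 : 0 ≤ cos s - √3 / 3 * sin s := by nlinarith
  have b2 : 0 ≤ 2 * √3 / 3 * sin s := by positivity
  have b3 : √3 * (1 - cos s) ≤ sin s := by
    apply le_of_sq_le_sq_of_nonneg' <;> nlinarith
  have b4 : 1 ≤ (cos s - √3 / 3 * sin s) + 2 * √3 / 3 * sin s := by nlinarith
  have e : pp x s = (cos s - √3 / 3 * sin s) * x.re +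
      2 * √3 / 3 * sin s * (x.re * (1 / 2) + x.im * (√3 / 2)) := by
    unfold pp; linear_combination (-(x.im * sin s) / 3) * hr
  have n0 : 0 ≤ ‖x‖ ^ 2 := by positivity
  have f1 := mul_le_mul_of_nonneg_left (show ‖x‖ ^ 2 ≤ 2 * x.re by linarith) b1
  have f2 := mul_le_mul_of_nonneg_left
    (show ‖x‖ ^ 2 ≤ 2 * (x.re * (1 / 2) + x.im * (√3 / 2)) by linarith) b2
  have f3 := mul_le_mul_of_nonneg_right b4 n0
  have : dd x s ^ 2 ≤ 1 := by rw [dd_sq, e]; nlinarith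
  nlinarith [dd_nonneg x s]
where le_of_sq_le_sq_of_nonneg' {a b : ℝ} (h : a ^ 2 ≤ b ^ 2) (hb : 0 ≤ b) : a ≤ b :=
  (abs_le_of_sq_le_sq' h hb).2

lemma dist_le_one {x y : ℂ} (hx : x ∈ Gam) (hy : y ∈ Gam) : dist x y ≤ 1 := by
  obtain ⟨j, t, ht, rfl⟩ := hy
  obtain ⟨i, hi, -⟩ := GG_inv j
  rw [← hi x, (isometry_GG j).dist_eq]
  exact dd_le_one (Gam_subset_TT (GG_mem_Gam hx i)) ⟨ht.1, by linarith [ht.2, pi_pos]⟩

lemma diam_eq_one {E : Set ℂ} (hE : E ⊆ Gam) (h0 : (0 : ℂ) ∈ E) (h1 : yy 0 ∈ E) :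
    Metric.diam E = 1 := by
  apply le_antisymm
  · exact Metric.diam_le_of_forall_dist_le zero_le_one fun x hx y hy => dist_le_one (hE hx) (hE hy)
  · rw [← dist_v01]
    exact Metric.dist_le_diam_of_mem (isCompact_Gam.isBounded.subset hE) h0 h1

lemma le_rdv_Gam : 2 / 3 ≤ rdv Gam := by
  refine le_rdv isCompact_Gam Gam_nonempty ![0, yy 0, yy (π / 3)] (fun i => by
    fin_cases i
    · exact v0_mem
    · exact v1_mem
    · exact v2_mem) _ fun y hy => ?_
  rw [← frontier_TT, mem_frontier_TT] at hy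
  simp only [Fin.sum_univ_three, Matrix.cons_val_zero, Matrix.cons_val_one, Matrix.cons_val_two,
    Matrix.head_cons, Matrix.tail_cons, Fintype.card_fin]
  have t1 := dist_triangle_left (0 : ℂ) (yy 0) y
  have t2 := dist_triangle_left (0 : ℂ) (yy (π / 3)) y
  have t3 := dist_triangle_left (yy 0) (yy (π / 3)) y
  rw [dist_v01] at t1
  rw [dist_v02] at t2
  rw [dist_v12] at t3
  rw [dist_comm 0 y, dist_comm (yy 0) y, dist_comm (yy (π / 3)) y, le_div_iff₀ (by norm_num)]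
  push_cast
  rcases hy.2 with h | h | h <;> linarith

lemma dd_sg (x : ℂ) (s : ℝ) : dd (sg x) s = dd x (π / 3 - s) := by
  rw [dd, dd, ← sg_yy, ← dist_sg x, sg_sg]

lemma kk_sg (x : ℂ) (s : ℝ) : kk (sg x) s = kk x (π / 3 - s) := by
  rw [kk, kk, dd_sg, norm_sg]

lemma d1_sg (x : ℂ) (s : ℝ) : d1 (sg x) s = -d1 x (π / 3 - s) := by
  rw [d1, d1, dd_sg, ← neg_div]
  congr 1
  simp only [qq, sg, cos_sub, sin_sub, cos_pi_div_three, sin_pi_div_three]
  ring

lemma osum_comp_sg (F : ℂ → ℝ) (x : ℂ) : osum (fun x => F (sg x)) x = osum F x := by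
  simp only [osum, sg_rho, sg_sg, rho3]; ring

lemma DD_symm (s t : ℝ) : DD (π / 3 - s) t = DD s t := by
  simp only [DD, ← dd_sg]; exact osum_comp_sg (fun x => dd x s) _

lemma KK_symm (s t : ℝ) : KK (π / 3 - s) t = KK s t := by
  simp only [KK, ← kk_sg]; exact osum_comp_sg (fun x => kk x s) _

theorem I4' {p s t : ℝ} (hp : p ∈ Icc 0 (π / 6)) (hX : 8 / 100 ≤ sin (p / 2)) (h1 : p ≤ s)
    (h2 : s ≤ π / 3 - p) (ht : t ∈ Icc 0 (π / 6)) : KK s t + 15 / 4 * DD s t < 16 := by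
  rcases le_total s (π / 6) with h | h
  · have hs : s ∈ Icc 0 (π / 6) := ⟨hp.1.trans h1, h⟩
    exact I4 hs ht (hX.trans (half_mono hp hs h1))
  · have hs : π / 3 - s ∈ Icc 0 (π / 6) := ⟨by linarith [hp.1], by linarith⟩
    rw [← KK_symm, ← DD_symm]
    exact I4 hs ht (hX.trans (half_mono hp hs (by linarith)))

noncomputable def kt (x : ℂ) (s : ℝ) : ℝ := kk x s - (1 - ‖x‖) / 4
noncomputable def KT (x : ℂ) : ℝ := ∫ s in (0 : ℝ)..(π / 6), sin (s / 2) * |kt x s|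

lemma continuous_kt (x : ℂ) : Continuous (kt x) := (continuous_kk x).sub continuous_const

lemma KT_of_norm {x : ℂ} (h : ‖x‖ = 1) : KT x = 0 := by
  simp [KT, kt, kk_of_norm _ _ h, h]

lemma KT_zero : KT 0 = 0 := by
  have h : ∀ s, kk 0 s = 1 / 4 := fun s => by simp [kk, dd, norm_yy]
  simp [KT, kt, h]

lemma int_kk_add {x : ℂ} (hx : ‖x‖ ≠ 1) (c : ℝ) :
    ∫ s in (0 : ℝ)..(π / 6), sin (s / 2) * (kk x s + c) =
      psi x (π / 6) - psi x 0 + 2 * (1 - cos (π / 6 / 2)) * c := by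
  simp only [mul_add]
  rw [intervalIntegral.integral_add ((continuous_FF x).intervalIntegrable _ _)
    ((by fun_prop : Continuous fun s : ℝ => sin (s / 2) * c).intervalIntegrable _ _),
    intervalIntegral.integral_mul_const, integral_sin_half,
    integral_kk x (by positivity) fun s _ => dd_ne_zero_of_norm hx s]

lemma KT_le {x : ℂ} (hx : ‖x‖ < 1) :
    KT x ≤ psi x (π / 6) - psi x 0 + 2 * (1 - cos (π / 6 / 2)) * ((1 - ‖x‖) / 4) := by
  rw [← int_kk_add hx.ne]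
  refine intervalIntegral.integral_mono_on (by positivity)
    (((by fun_prop : Continuous fun s : ℝ => sin (s / 2)).mul
      (continuous_kt x).abs).intervalIntegrable _ _)
    (((by fun_prop : Continuous fun s : ℝ => sin (s / 2)).mul
      ((continuous_kk x).add continuous_const)).intervalIntegrable _ _) fun s hs => ?_
  apply mul_le_mul_of_nonneg_left _ (half_bounds hs).1
  have := kk_nonneg x s
  rw [kt, abs_le]
  constructor <;> linarith

lemma KT_eq {x : ℂ} (hx : x ∈ Gam) (h : ‖x‖ ≤ 52 / 100) :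
    KT x = psi x (π / 6) - psi x 0 + 2 * (1 - cos (π / 6 / 2)) * (-((1 - ‖x‖) / 4)) := by
  have hpi := pi_pos
  rw [← int_kk_add (by linarith)]
  refine intervalIntegral.integral_congr fun s hs => ?_
  rw [uIcc_of_le (by positivity)] at hs
  have h1 := dd_le_one (Gam_subset_TT hx) (s := s) ⟨hs.1, by linarith [hs.2]⟩
  have h2 := dd_ge_norm x s
  have h3 : (1 - ‖x‖) / 4 ≤ kk x s := by
    have h0 := norm_nonneg x
    have h4 : 0 < dd x s := by linarith
    unfold kk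
    rw [le_div_iff₀ (by positivity)]
    have h5 : dd x s ^ 3 ≤ 1 := pow_le_one₀ h4.le h1
    have h6 : 1 - ‖x‖ ≤ (1 - ‖x‖ ^ 2) ^ 2 := by
      have : 0 ≤ ‖x‖ * (1 - ‖x‖) * (1 - ‖x‖ - ‖x‖ ^ 2) :=
        mul_nonneg (mul_nonneg h0 (by linarith)) (by nlinarith)
      nlinarith
    nlinarith [mul_le_mul_of_nonneg_left h5 (show 0 ≤ 1 - ‖x‖ by linarith)]
  simp only [kt]
  rw [abs_of_nonneg (by linarith)]; ring

lemma psi_pair (x : ℂ) : psi (sg x) (π / 6) + psi x (π / 6) = -(dd x (π / 6) * cos (π / 6 / 2)) := by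
  have e : π / 3 - π / 6 = π / 6 := by ring
  simp only [psi, d1_sg, dd_sg, e]; ring

theorem I5 {t : ℝ} (ht : t ∈ Icc 0 (π / 6)) (h0 : 0 < t) : osum KT (yy t) < 2 * sin (t / 2) := by
  have hpi := pi_pos
  have hL : π / 6 ∈ Icc 0 (π / 6) := ⟨by positivity, le_rfl⟩
  have h0' : (0 : ℝ) ∈ Icc 0 (π / 6) := ⟨le_rfl, by positivity⟩
  obtain ⟨b1, b2, b3, b4, -⟩ := half_bounds ht
  obtain ⟨a1, a2, a3, a4, -⟩ := half_bounds hL
  have hY := half_pos ht h0
  have hR := R3_lt ht h0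
  have hy : yy t ∈ Gam := yy_mem_Gam ⟨ht.1, by linarith [ht.2]⟩
  have hr := r3_gt
  have hr' := r3_lt
  have e3 := KT_le (x := rho (rho (sg (yy t)))) (by rw [norm_x3' ht]; exact hR)
  have e4 := KT_le (x := rho (yy t)) (by rw [norm_x4' ht]; exact hR)
  have e5 := KT_eq (x := rho (rho (yy t))) (GG_mem_Gam hy 2) (by rw [norm_x5' ht]; linarith)
  have e6 := KT_eq (x := rho (sg (yy t))) (GG_mem_Gam hy 4) (by rw [norm_x6' ht]; linarith)
  have p34 := psi_pair (rho (rho (sg (yy t))))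
  have p56 := psi_pair (rho (rho (yy t)))
  rw [sg_rho_rho, sg_sg] at p34
  rw [sg_rho_rho] at p56
  have z := DD_zero ht
  rw [DD_eq h0' ht] at z
  simp only [k3, zero_div, sin_zero, cos_zero, zero_mul, one_mul, zero_sub, abs_neg, sub_zero,
    zero_add, abs_of_pos hY] at z
  rw [norm_x3' ht] at e3
  rw [norm_x4' ht] at e4
  rw [norm_x5' ht] at e5
  rw [norm_x6' ht] at e6
  simp only [psi_zero] at e3 e4 e5 e6
  have d3 : 2 * sin (π / 6 / 2) ≤ dd (rho (rho (sg (yy t)))) (π / 6) := by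
    rw [dd_x3]
    apply le_sqrt_of_sq_le
    have := k3_nonneg hL ht
    have : 0 ≤ sin (π / 6 / 2) * sin (t / 2) * k3 (π / 6) t := by positivity
    nlinarith
  have d5 : 1 - 146 / 100 * sin (t / 2) ≤ dd (rho (rho (yy t))) (π / 6) := by
    rw [dd_x5]
    apply le_sqrt_of_sq_le
    simp only [w5, cm, sm, cos_pi_div_six, sin_pi_div_six]
    have h1 : √3 * (√3 / 2 * cos (t / 2) + 1 / 2 * sin (t / 2)) -
        (1 / 2 * cos (t / 2) - √3 / 2 * sin (t / 2)) = cos (t / 2) + √3 * sin (t / 2) := by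
      linear_combination (cos (t / 2) / 2) * r3_sq
    rw [h1]
    have h2 : cos (t / 2) + √3 * sin (t / 2) ≤ 146 / 100 := by nlinarith
    nlinarith [mul_le_mul_of_nonneg_left h2 b1]
  have hs : 2 * sin (π / 6 / 2) * cos (π / 6 / 2) = 1 / 2 := by
    rw [← sin_eq_half, sin_pi_div_six]
  have f3 := mul_le_mul_of_nonneg_right d3 (show 0 ≤ cos (π / 6 / 2) by linarith)
  have f5 := mul_le_mul_of_nonneg_right d5 (show 0 ≤ cos (π / 6 / 2) by linarith)
  have hR3 : R3 t ≤ 1 - 173 / 100 * sin (t / 2) := by unfold R3; nlinarith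
  have hz : R3 t = cos (t / 2) - √3 * sin (t / 2) := rfl
  have f6 := mul_le_mul_of_nonneg_right hR3 (show 0 ≤ cos (π / 6 / 2) - 1 / 2 by linarith)
  simp only [osum, KT_of_norm (norm_yy t), KT_of_norm ((norm_sg _).trans (norm_yy t))]
  have f7 := mul_le_mul_of_nonneg_right a3 b1
  nlinarith

lemma osum_KT_zero : osum KT (yy 0) = 0 := by
  simp only [osum, sg_v1, rho_v1, rho_v2, rho_zero', KT_zero, KT_of_norm (norm_yy _), add_zero]

end Pool.Agent.Lib.MP_69e6d0_co
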