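import Mathlib

/-! Projection of an interval onto a compact subset. -/

namespace Pool.Agent.Lib.MP_69e6d0_co

open Set MeasureTheory Filter Topology

noncomputable def pr (S : Set ℝ) (L x : ℝ) : ℝ := sInf (S ∩ Ici (min x L))

variable {S : Set ℝ} {L : ℝ}

lemma pr_mem (hS : IsCompact S) (hL : L ∈ S) (x : ℝ) : pr S L x ∈ S ∩ Ici (min x L) :=
  (hS.inter_right isClosed_Ici).sInf_mem ⟨L, hL, mem_Ici.mpr (min_le_right x L)⟩

lemma pr_le (hS : IsCompact S) {x β : ℝ} (hβ : β ∈ S) (h : min x L ≤ β) : pr S L x ≤ β :=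
  csInf_le (hS.inter_right isClosed_Ici).bddBelow ⟨hβ, h⟩

lemma monotone_pr (hS : IsCompact S) (hL : L ∈ S) : Monotone (pr S L) := fun _ y h =>
  pr_le hS (pr_mem hS hL y).1 ((min_le_min_right L h).trans (pr_mem hS hL y).2)

lemma map_pr_eq (hS : IsCompact S) (hL : L ∈ S) {m₁ m₂ : Measure ℝ} [IsFiniteMeasure m₁]
    [IsFiniteMeasure m₂] (h1 : m₁ (Ioc 0 L)ᶜ = 0) (h2 : m₂ (Ioc 0 L)ᶜ = 0)
    (h : ∀ β ∈ S, m₁.real (Iic β) = m₂.real (Iic β)) :
    m₁.map (pr S L) = m₂.map (pr S L) := by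
  have hm := (monotone_pr hS hL).measurable
  refine Measure.ext_of_Iic _ _ fun b => ?_
  rw [Measure.map_apply hm measurableSet_Iic, Measure.map_apply hm measurableSet_Iic]
  rcases (S ∩ Iic b).eq_empty_or_nonempty with he | hne
  · have : pr S L ⁻¹' Iic b = ∅ := by
      ext x
      simp only [mem_preimage, mem_empty_iff_false, iff_false]
      intro hx
      have : pr S L x ∈ S ∩ Iic b := ⟨(pr_mem hS hL x).1, hx⟩
      rw [he] at this
      exact this
    rw [this]; simp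
  · obtain ⟨β, hβ, hmax⟩ := (hS.inter_right isClosed_Iic).exists_isGreatest hne
    have key : ∀ m : Measure ℝ, m (Ioc 0 L)ᶜ = 0 → m (pr S L ⁻¹' Iic b) = m (Iic β) := by
      intro m hm
      apply measure_congr
      have : ∀ᵐ s ∂m, s ∈ Ioc 0 L := hm
      filter_upwards [this] with s hs
      have h3 := pr_mem hS hL s
      rw [min_eq_left hs.2] at h3
      refine propext ⟨fun h4 => ?_, fun h4 => ?_⟩
      · exact le_trans h3.2 (hmax ⟨h3.1, h4⟩)
      · exact (pr_le hS hβ.1 ((min_le_left _ _).trans h4)).trans hβ.2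
    rw [key _ h1, key _ h2]
    exact (ENNReal.toReal_eq_toReal_iff' (measure_ne_top _ _) (measure_ne_top _ _)).mp (h β hβ.1)

lemma exists_selection (hS : IsCompact S) (hL : L ∈ S) {Z : Set ℝ}
    (hZ : Z ⊆ Icc 0 L) (hgap : ∀ x ∈ Z, ∀ z ∈ Z, x < z → ∃ s ∈ Icc x z, s ∈ S) :
    ∃ Q : Set ℝ, Q.Countable ∧ (∀ q ∈ Q, q ∈ S ∧ 0 < q) ∧ ∀ e : ℝ → ℝ, Measurable e →
      (∀ s, |e s| ≤ 1) → ∃ θ : ℝ → ℝ, Measurable θ ∧ (∀ s, |θ s| ≤ 1) ∧
        ∀ z ∈ Z, z ∉ Q → θ (pr S L z) = e z := by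
  classical
  have hle : ∀ z ∈ Z, z ≤ pr S L z := fun z hz => by
    have := (pr_mem hS hL z).2
    rwa [min_eq_left (hZ hz).2] at this
  have hlt : ∀ z ∈ Z \ S, z < pr S L z := fun z hz =>
    lt_of_le_of_ne (hle z hz.1) fun e => hz.2 (e ▸ (pr_mem hS hL z).1)
  have hsep : ∀ x ∈ Z \ S, ∀ z ∈ Z \ S, x < z → pr S L x < z := by
    intro x hx z hz hxz
    obtain ⟨s, hs, hs'⟩ := hgap x hx.1 z hz.1 hxz
    exact (pr_le hS hs' ((min_le_left _ _).trans hs.1)).trans_lt
      (lt_of_le_of_ne hs.2 fun e => hz.2 (e ▸ hs'))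
  have hc : (Z \ S).Countable := by
    refine Set.PairwiseDisjoint.countable_of_Ioo (y := pr S L) ?_ hlt
    intro x hx z hz hne
    rcases lt_or_gt_of_ne hne with h | h
    · exact disjoint_left.mpr fun u hu hu' => by linarith [hsep x hx z hz h, hu.2, hu'.1]
    · exact disjoint_left.mpr fun u hu hu' => by linarith [hsep z hz x hx h, hu.1, hu'.2]
  have hinj : ∀ x ∈ Z \ S, ∀ z ∈ Z \ S, pr S L x = pr S L z → x = z := by
    intro x hx z hz e
    by_contra hne
    rcases lt_or_gt_of_ne hne with h | h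
    · linarith [hsep x hx z hz h, hlt z hz]
    · linarith [hsep z hz x hx h, hlt x hx]
  refine ⟨pr S L '' (Z \ S), hc.image _, ?_, fun e he he1 => ?_⟩
  · rintro _ ⟨z, hz, rfl⟩
    exact ⟨(pr_mem hS hL z).1, (hZ hz.1).1.trans_lt (hlt z hz)⟩
  · refine ⟨fun y => if h : y ∈ pr S L '' (Z \ S) then e h.choose else e y,
      he.measurable_of_countable_ne ((hc.image (pr S L)).mono fun y hy => ?_), fun y => ?_,
      fun z hz hzQ => ?_⟩
    · by_contra hn
      exact hy (by simp only [dif_neg hn])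
    · beta_reduce
      split_ifs
      · exact he1 _
      · exact he1 _
    · by_cases hzS : z ∈ S
      · have : pr S L z = z := le_antisymm (pr_le hS hzS (min_le_left _ _)) (hle z hz)
        rw [this]
        simp only [dif_neg hzQ]
      · have h1 : pr S L z ∈ pr S L '' (Z \ S) := ⟨z, ⟨hz, hzS⟩, rfl⟩
        simp only [dif_pos h1]
        rw [hinj _ h1.choose_spec.1 z ⟨hz, hzS⟩ h1.choose_spec.2]

end Pool.Agent.Lib.MP_69e6d0_co
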