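import Pool.Agent.Lib.MP_69e6d0_co.Calc
import Pool.Agent.Lib.MP_69e6d0_co.Ineq3

/-! Structure of the contact sets of a pair of symmetric optimal measures. -/

namespace Pool.Agent.Lib.MP_69e6d0_co

open Real Set MeasureTheory Filter Topology Pool.Agent.Lib.MP_55cb2c_co

lemma integral_pos_of_ae {α : Type} [MeasurableSpace α] {m : Measure α} [IsProbabilityMeasure m]
    {F : α → ℝ} (hF : Integrable F m) (h : ∀ᵐ x ∂m, 0 < F x) : 0 < ∫ x, F x ∂m := by
  have h0 : 0 ≤ᵐ[m] F := h.mono fun x hx => hx.le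
  refine lt_of_le_of_ne (integral_nonneg_of_ae h0) fun e => ?_
  have h1 := (integral_eq_zero_iff_of_nonneg_ae h0 hF).mp e.symm
  obtain ⟨x, hx1, hx2⟩ := (h.and h1).exists
  exact hx1.ne' hx2

variable {μ ν : Measure ℂ} [IsProbabilityMeasure μ] [IsProbabilityMeasure ν] {a : ℝ}

lemma slack (hμ : ∀ᵐ x ∂μ, x ∈ Gam) (hν : ∀ᵐ x ∂ν, x ∈ Gam) (lo : ∀ y ∈ Gam, a ≤ pot μ y)
    (hi : ∀ y ∈ Gam, pot ν y ≤ a) : (∀ᵐ x ∂μ, pot ν x = a) ∧ ∀ᵐ x ∂ν, pot μ x = a := by
  have i1 : Integrable (pot ν) μ :=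
    integrable_of_cont isCompact_Gam hμ (continuous_pot isCompact_Gam hν)
  have i2 : Integrable (pot μ) ν :=
    integrable_of_cont isCompact_Gam hν (continuous_pot isCompact_Gam hμ)
  have n1 : 0 ≤ᵐ[μ] fun x => a - pot ν x := hμ.mono fun x hx => sub_nonneg.mpr (hi x hx)
  have n2 : 0 ≤ᵐ[ν] fun x => pot μ x - a := hν.mono fun x hx => sub_nonneg.mpr (lo x hx)
  have e := integral_pot_comm isCompact_Gam hμ hν
  have e1 : ∫ x, a - pot ν x ∂μ = a - ∫ x, pot ν x ∂μ := by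
    rw [integral_sub (integrable_const _) i1]; simp
  have e2 : ∫ x, pot μ x - a ∂ν = ∫ x, pot μ x ∂ν - a := by
    rw [integral_sub i2 (integrable_const _)]; simp
  have p1 := integral_nonneg_of_ae n1
  have p2 := integral_nonneg_of_ae n2
  constructor
  · have := (integral_eq_zero_iff_of_nonneg_ae n1 ((integrable_const _).sub i1)).mp (by linarith)
    filter_upwards [this] with x hx
    exact (sub_eq_zero.mp hx).symm
  · have := (integral_eq_zero_iff_of_nonneg_ae n2 (i2.sub (integrable_const _))).mp (by linarith)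
    filter_upwards [this] with x hx
    exact sub_eq_zero.mp hx

lemma sum4 (hμ : ∀ᵐ x ∂μ, x ∈ Gam) (hs : IsSym μ) {P : ℝ → Prop}
    (hP : ∀ᵐ x ∂μ, ∀ t ∈ Icc 0 (π / 6), ∀ j, x = GG j (yy t) → P t)
    (w1 w2 w3 w4 s1 s2 s3 s4 c : ℝ)
    (h : ∀ t ∈ Icc 0 (π / 6), P t →
      c < w1 * DD s1 t + w2 * DD s2 t + w3 * DD s3 t + w4 * DD s4 t) :
    c < 6 * (w1 * pot μ (yy s1) + w2 * pot μ (yy s2) + w3 * pot μ (yy s3) +
      w4 * pot μ (yy s4)) := by
  have i : ∀ w s, Integrable (fun x => w * osum (fun x => dd x s) x) μ := fun w s =>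
    (hs.integrable_osum (integrable_dist isCompact_Gam hμ _)).const_mul w
  have i12 : Integrable (fun x => w1 * osum (fun x => dd x s1) x +
    w2 * osum (fun x => dd x s2) x) μ := (i _ _).add (i _ _)
  have i123 : Integrable (fun x => w1 * osum (fun x => dd x s1) x +
    w2 * osum (fun x => dd x s2) x + w3 * osum (fun x => dd x s3) x) μ := i12.add (i _ _)
  have i1234 : Integrable (fun x => w1 * osum (fun x => dd x s1) x +
    w2 * osum (fun x => dd x s2) x + w3 * osum (fun x => dd x s3) x +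
    w4 * osum (fun x => dd x s4) x) μ := i123.add (i _ _)
  have := integral_pos_of_ae (i1234.sub (integrable_const c)) (by
    filter_upwards [hμ, hP] with x hx hx'
    obtain ⟨t, ht, ⟨j, hj⟩, e⟩ := osum_of_mem hx
    have := h t ht (hx' t ht j hj)
    simp only [Pi.sub_apply, e]
    unfold DD at this
    linarith)
  simp only [Pi.sub_apply] at this
  rw [integral_sub i1234 (integrable_const c), integral_add i123 (i _ _), integral_add i12 (i _ _),
    integral_add (i _ _) (i _ _)] at this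
  simp only [integral_const_mul, six_pot hμ hs, integral_const, probReal_univ, one_smul] at this
  linarith

omit [IsProbabilityMeasure μ] [IsProbabilityMeasure ν] in
lemma ae_level (hs : IsSym ν) (h : ∀ᵐ x ∂μ, pot ν x = a) :
    ∀ᵐ x ∂μ, ∀ t ∈ Icc 0 (π / 6), ∀ j, x = GG j (yy t) → pot ν (yy t) = a := by
  filter_upwards [h] with x hx t _ j e
  rw [← hs.pot_GG j, ← e, hx]

omit [IsProbabilityMeasure ν] in
lemma dd_ne (hs : IsSym ν) {s t : ℝ} (h1 : pot ν (yy t) = a) (h2 : pot ν (yy s) ≠ a) (j : Fin 6) :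
    dd (GG j (yy t)) s ≠ 0 := by
  intro h
  rw [dd, dist_eq_zero] at h
  exact h2 (by rw [← h, hs.pot_GG, h1])

lemma hasDerivAt_DD {s t : ℝ} (h : ∀ j, dd (GG j (yy t)) s ≠ 0) :
    HasDerivAt (fun s => DD s t) (D1 s t) s := by
  simp only [DD, D1, osum_eq]
  exact HasDerivAt.fun_sum fun j _ => hasDerivAt_dd _ s (h j)

lemma hasDerivAt_D1 {s t : ℝ} (h : ∀ j, dd (GG j (yy t)) s ≠ 0) :
    HasDerivAt (fun s => D1 s t) (KK s t - DD s t / 4) s := by
  simp only [DD, D1, KK, osum_eq, Finset.sum_div, ← Finset.sum_sub_distrib]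
  exact HasDerivAt.fun_sum fun j _ => hasDerivAt_d1 _ s (h j)

lemma hasDerivAt_D2 {s t : ℝ} (h : ∀ j, dd (GG j (yy t)) s ≠ 0) :
    HasDerivAt (fun s => KK s t - DD s t / 4) (-G3 s t) s :=
  ((hasDerivAt_KK s t).sub ((hasDerivAt_DD h).div_const 4)).congr_deriv (by ring)

lemma continuous_DD (t : ℝ) : Continuous fun s => DD s t := by
  simp only [DD, osum_eq]
  exact continuous_finsetSum _ fun j _ => continuous_dd_s _

omit [IsProbabilityMeasure ν] in
lemma DD_anti (hs : IsSym ν) {s0 t : ℝ} (ht : t ∈ Icc 0 (π / 6)) (h0 : s0 ≤ t)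
    (h1 : pot ν (yy t) = a) (h2 : ∀ s ∈ Ioo 0 s0, pot ν (yy s) ≠ a) :
    StrictAntiOn (fun s => DD s t) (Icc 0 s0) := by
  apply strictAntiOn_of_deriv_neg (convex_Icc _ _) (continuous_DD t).continuousOn
  intro s hs'
  rw [interior_Icc] at hs'
  rw [(hasDerivAt_DD (dd_ne hs h1 (h2 s hs'))).deriv]
  exact I1 ⟨hs'.1.le, by linarith [hs'.2, ht.2]⟩ ht (by linarith [hs'.2])

structure Pair (μ ν : Measure ℂ) (a : ℝ) : Prop where
  hμ : ∀ᵐ x ∂μ, x ∈ Gam
  hν : ∀ᵐ x ∂ν, x ∈ Gam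
  sμ : IsSym μ
  sν : IsSym ν
  lo : ∀ y ∈ Gam, a ≤ pot μ y
  hi : ∀ y ∈ Gam, pot ν y ≤ a
  ha : 2 / 3 ≤ a

def lev (ν : Measure ℂ) (a : ℝ) : Set ℝ := {s | s ∈ Icc 0 (π / 6) ∧ pot ν (yy s) = a}

lemma cont_pot (hν : ∀ᵐ x ∂ν, x ∈ Gam) : Continuous fun s => pot ν (yy s) :=
  (continuous_pot isCompact_Gam hν).comp continuous_yy

lemma isCompact_lev (hν : ∀ᵐ x ∂ν, x ∈ Gam) : IsCompact (lev ν a) :=
  isCompact_Icc.inter_right (isClosed_eq (cont_pot hν) continuous_const)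

lemma mem_Gam' {s : ℝ} (hs : s ∈ Icc 0 (π / 6)) : yy s ∈ Gam :=
  yy_mem_Gam ⟨hs.1, by linarith [hs.2, pi_pos]⟩

lemma Pair.aeμ (h : Pair μ ν a) :
    ∀ᵐ x ∂μ, ∀ t ∈ Icc 0 (π / 6), ∀ j, x = GG j (yy t) → pot ν (yy t) = a :=
  ae_level h.sν (slack h.hμ h.hν h.lo h.hi).1

lemma Pair.aeν (h : Pair μ ν a) :
    ∀ᵐ x ∂ν, ∀ t ∈ Icc 0 (π / 6), ∀ j, x = GG j (yy t) → pot μ (yy t) = a :=
  ae_level h.sμ (slack h.hμ h.hν h.lo h.hi).2

theorem Pair.zero_mem (h : Pair μ ν a) : 0 ∈ lev ν a := by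
  have hne : (lev ν a).Nonempty := by
    obtain ⟨x, ⟨j, t, ht, e⟩, hx⟩ := (h.hμ.and h.aeμ).exists
    exact ⟨t, ht, hx t ht j e⟩
  obtain ⟨s0, hs0, hmin⟩ := (isCompact_lev h.hν).exists_isLeast hne
  rcases hs0.1.1.eq_or_lt with e | hpos
  · rwa [← e] at hs0
  exfalso
  have h1 : ∀ s ∈ Ico 0 s0, a < pot μ (yy s) := by
    intro s hs
    have := sum4 h.hμ h.sμ h.aeμ 1 (-1) 0 0 s s0 0 0 0 fun t ht ht' => by
      have := DD_anti h.sν ht (hmin ⟨ht, ht'⟩) ht' (fun u hu e => by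
        have := hmin ⟨⟨hu.1.le, hu.2.le.trans hs0.1.2⟩, e⟩
        linarith [hu.2]) ⟨hs.1, hs.2.le⟩ (right_mem_Icc.mpr hpos.le) hs.2
      simp only at this
      linarith
    linarith [h.lo _ (mem_Gam' hs0.1)]
  have := sum4 h.hν h.sν h.aeν 1 (-1) 0 0 0 s0 0 0 0 fun t ht ht' => by
    have h2 : s0 ≤ t := by
      by_contra hc
      exact (h1 t ⟨ht.1, not_le.mp hc⟩).ne' ht'
    have := DD_anti h.sμ ht h2 ht' (fun u hu => (h1 u ⟨hu.1.le, hu.2⟩).ne')
      (left_mem_Icc.mpr hpos.le) (right_mem_Icc.mpr hpos.le) hpos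
    simp only at this
    linarith
  linarith [h.hi _ v1_mem, hs0.2]

theorem Pair.far_mem (h : Pair μ ν a) {p : ℝ} (hp : p ∈ lev μ a) (hX : 8 / 100 < sin (p / 2)) :
    p ∈ lev ν a := by
  have hpi := pi_pos
  refine ⟨hp.1, ?_⟩
  by_contra hc
  have hp0 : 0 < p := lt_of_le_of_ne hp.1.1 fun e => by rw [← e] at hX; norm_num at hX
  have e1 : ∀ᶠ s in 𝓝 p, pot ν (yy s) ≠ a := (cont_pot h.hν).continuousAt.eventually_ne hc
  have e2 : ∀ᶠ s in 𝓝 p, 8 / 100 < sin (s / 2) :=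
    continuousAt_const.eventually_lt (by fun_prop) hX
  have e3 : ∀ᶠ s in 𝓝 p, 0 < s := lt_mem_nhds hp0
  obtain ⟨δ, hδ, hb⟩ := Metric.eventually_nhds_iff.mp (e1.and (e2.and e3))
  set ε := min (δ / 2) (1 / 2) with hε
  have hε0 : 0 < ε := lt_min (by linarith) (by norm_num)
  have hb' : ∀ s ∈ Icc (p - ε) (p + ε), pot ν (yy s) ≠ a ∧ 8 / 100 < sin (s / 2) ∧ 0 < s := by
    intro s hs
    apply hb
    rw [Real.dist_eq, abs_lt]
    have := min_le_left (δ / 2) (1 / 2)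
    constructor <;> linarith [hs.1, hs.2]
  obtain ⟨-, l2, l3⟩ := hb' (p - ε) ⟨le_rfl, by linarith⟩
  have := sum4 h.hμ h.sμ h.aeμ (2 * cos (2 * ε)) (-1) (-1) 0 p (p - ε) (p + ε) 0
    (8 * cos (2 * ε) - 8) fun t ht ht' => by
      have := sturm (f := fun s => DD s t - 4) (f1 := fun s => D1 s t)
        (f2 := fun s => KK s t - DD s t / 4) (p := p) hε0 (min_le_right _ _)
        (fun s hs => (hasDerivAt_DD (dd_ne h.sν ht' (hb' s hs).1)).sub_const 4)
        (fun s hs => hasDerivAt_D1 (dd_ne h.sν ht' (hb' s hs).1))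
        (fun s hs => by
          have := I4' (p := p - ε) (s := s) ⟨l3.le, by linarith [hp.1.2]⟩ l2.le hs.1
            (by linarith [hs.2, hp.1.2]) ht
          linarith)
      linarith
  have b1 := h.lo _ (yy_mem_Gam (s := p - ε) ⟨l3.le, by linarith [hp.1.2]⟩)
  have b2 := h.lo _ (yy_mem_Gam (s := p + ε) ⟨by linarith, by linarith [hp.1.2]⟩)
  rw [hp.2] at this
  nlinarith [cos_le_one (2 * ε), h.ha]

theorem Pair.gap (h : Pair μ ν a) {x z : ℝ} (hx : x ∈ lev μ a) (hz : z ∈ lev μ a) (hxz : x < z) :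
    ∃ s ∈ Icc x z, s ∈ lev ν a := by
  have hpi := pi_pos
  by_contra hc
  push Not at hc
  have hc' : ∀ s ∈ Icc x z, pot ν (yy s) ≠ a := fun s hs e =>
    hc s hs ⟨⟨hx.1.1.trans hs.1, hs.2.trans hz.1.2⟩, e⟩
  have hx0 : 0 < x := lt_of_le_of_ne hx.1.1 fun e =>
    hc x (left_mem_Icc.mpr hxz.le) (e ▸ h.zero_mem)
  have hz1 : sin (z / 2) ≤ 8 / 100 := by
    by_contra h1
    exact hc z (right_mem_Icc.mpr hxz.le) (h.far_mem hz (not_le.mp h1))
  have hz2 : z < π / 6 := by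
    obtain ⟨s, hs, e⟩ := exists_sin_half (c := 1 / 4) (by norm_num) le_rfl
    by_contra h1
    have := half_mono hs hz.1 (hs.2.trans (not_lt.mp h1))
    linarith
  have e1 : ∀ᶠ s in 𝓝 z, pot ν (yy s) ≠ a :=
    (cont_pot h.hν).continuousAt.eventually_ne (hc' z (right_mem_Icc.mpr hxz.le))
  have e2 : ∀ᶠ s in 𝓝 z, sin (s / 2) < 9 / 100 :=
    ContinuousAt.eventually_lt (by fun_prop) continuousAt_const (by linarith)
  have e3 : ∀ᶠ s in 𝓝 z, s < π / 6 := gt_mem_nhds hz2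
  obtain ⟨δ, hδ, hb⟩ := Metric.eventually_nhds_iff.mp (e1.and (e2.and e3))
  set d := z + δ / 2 with hd
  set b := (x + z) / 2 with hbb
  have hzd : z < d := by linarith
  have hxb : x < b := by linarith
  have hbz : b < z := by linarith
  obtain ⟨-, l2, l3⟩ := hb (y := d) (by rw [Real.dist_eq, abs_lt]; constructor <;> linarith)
  have hb' : ∀ s ∈ Icc x d, pot ν (yy s) ≠ a := by
    intro s hs
    rcases le_total s z with h1 | h1
    · exact hc' s ⟨hs.1, h1⟩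
    · exact (hb (by rw [Real.dist_eq, abs_lt]; constructor <;> linarith [hs.2])).1
  have := sum4 h.hμ h.sμ h.aeμ _ _ _ _ x b z d 0 fun t ht ht' =>
    third_diff (f := fun s => DD s t) (f1 := fun s => D1 s t)
      (f2 := fun s => KK s t - DD s t / 4) (f3 := fun s => -G3 s t) hxb hbz hzd
      (fun s hs => hasDerivAt_DD (dd_ne h.sν ht' (hb' s hs)))
      (fun s hs => hasDerivAt_D1 (dd_ne h.sν ht' (hb' s hs)))
      (fun s hs => hasDerivAt_D2 (dd_ne h.sν ht' (hb' s hs)))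
      (fun s hs => by
        have hs' : s ∈ Icc 0 (π / 6) := ⟨by linarith [hs.1], by linarith [hs.2]⟩
        have := I3 hs' ht (by linarith [hs.1])
          ((half_mono hs' ⟨by linarith, l3.le⟩ hs.2).trans l2.le)
          (fun e => hb' s hs (e ▸ ht'))
        linarith)
  have b1 := h.lo _ (mem_Gam' (s := b) ⟨by linarith, by linarith⟩)
  have b2 := h.lo _ (mem_Gam' (s := d) ⟨by linarith, l3.le⟩)
  rw [hx.2, hz.2] at this
  have p1 : 0 < b - x := by linarith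
  have p2 : 0 < z - x := by linarith
  have p3 : 0 < d - x := by linarith
  have p4 : 0 < z - b := by linarith
  have p5 : 0 < d - b := by linarith
  have p6 : 0 < d - z := by linarith
  have q1 := mul_le_mul_of_nonneg_left b1
    (show 0 ≤ ((b - x) * (z - b) * (d - b))⁻¹ by positivity)
  have q2 := mul_le_mul_of_nonneg_left b2
    (show 0 ≤ ((d - x) * (d - b) * (d - z))⁻¹ by positivity)
  have q3 : ((b - x) * (z - x) * (d - x))⁻¹ * a + ((z - x) * (z - b) * (d - z))⁻¹ * a =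
      ((b - x) * (z - b) * (d - b))⁻¹ * a + ((d - x) * (d - b) * (d - z))⁻¹ * a := by
    field_simp; ring
  linarith

theorem Pair.exists_far (h : Pair μ ν a) : ∃ L ∈ lev ν a, 8 / 100 < sin (L / 2) := by
  by_contra hc
  push Not at hc
  obtain ⟨s1, hs1, e1⟩ := exists_sin_half (c := 25 / 100) (by norm_num) (by norm_num)
  obtain ⟨s2, hs2, e2⟩ := exists_sin_half (c := 8 / 100) (by norm_num) (by norm_num)
  have h1 := sum4 h.hν h.sν h.aeν 1 10 0 0 s1 0 0 0 (8811 / 200) fun t ht ht' => by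
    have : sin (t / 2) ≤ 8 / 100 := by
      by_contra h1
      exact h1 (hc t (h.far_mem ⟨ht, ht'⟩ (not_le.mp h1)))
    linarith [J1 hs1 ht e1 this]
  have h2 := sum4 h.hμ h.sμ h.aeμ (-1) (-9) 0 0 s2 0 0 0 (-(801 / 20)) fun t ht ht' => by
    linarith [J2 hs2 ht e2 (hc t ⟨ht, ht'⟩)]
  linarith [h.hi _ (mem_Gam' hs1), h.hi _ v1_mem, h.lo _ (mem_Gam' hs2), h.lo _ v1_mem]

end Pool.Agent.Lib.MP_69e6d0_co
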