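import Pool.Agent.Lib.MP_69e6d0_co.Uniq

/-! Removing a suitable small arc from the Reuleaux curve raises the rendezvous value. -/

namespace Pool.Agent.Lib.MP_69e6d0_co

open Real Set MeasureTheory Filter Topology Pool.Agent.Lib.MP_55cb2c_co

noncomputable def mix (p : ℝ) (l₁ l₂ : Measure ℂ) : Measure ℂ :=
  ENNReal.ofReal (1 - p) • l₁ + ENNReal.ofReal p • l₂

section mix

variable {p : ℝ} {l₁ l₂ : Measure ℂ} [IsProbabilityMeasure l₁] [IsProbabilityMeasure l₂]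

lemma isProb_mix (h0 : 0 ≤ p) (h1 : p ≤ 1) : IsProbabilityMeasure (mix p l₁ l₂) := by
  constructor
  simp only [mix, Measure.add_apply, Measure.smul_apply, measure_univ, smul_eq_mul, mul_one]
  rw [← ENNReal.ofReal_add (by linarith) h0]; simp

omit [IsProbabilityMeasure l₁] [IsProbabilityMeasure l₂] in
lemma ae_mix {P : ℂ → Prop} (h1 : ∀ᵐ x ∂l₁, P x) (h2 : ∀ᵐ x ∂l₂, P x) :
    ∀ᵐ x ∂(mix p l₁ l₂), P x :=
  ae_add_measure_iff.mpr ⟨Measure.ae_smul_measure h1 _, Measure.ae_smul_measure h2 _⟩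

omit [IsProbabilityMeasure l₁] [IsProbabilityMeasure l₂] in
lemma integral_mix (h0 : 0 ≤ p) (h1 : p ≤ 1) {F : ℂ → ℝ} (i1 : Integrable F l₁)
    (i2 : Integrable F l₂) :
    ∫ x, F x ∂(mix p l₁ l₂) = (1 - p) * ∫ x, F x ∂l₁ + p * ∫ x, F x ∂l₂ := by
  rw [mix, integral_add_measure (i1.smul_measure ENNReal.ofReal_ne_top)
    (i2.smul_measure ENNReal.ofReal_ne_top), integral_smul_measure, integral_smul_measure,
    ENNReal.toReal_ofReal (by linarith), ENNReal.toReal_ofReal h0, smul_eq_mul, smul_eq_mul]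

lemma pot_mix (h0 : 0 ≤ p) (h1 : p ≤ 1) (m1 : ∀ᵐ x ∂l₁, x ∈ Gam) (m2 : ∀ᵐ x ∂l₂, x ∈ Gam)
    (y : ℂ) : pot (mix p l₁ l₂) y = (1 - p) * pot l₁ y + p * pot l₂ y :=
  integral_mix h0 h1 (integrable_dist isCompact_Gam m1 y) (integrable_dist isCompact_Gam m2 y)

lemma real_mix (h0 : 0 ≤ p) (h1 : p ≤ 1) {J : Set ℂ} (hJ : MeasurableSet J) :
    (mix p l₁ l₂).real J = (1 - p) * l₁.real J + p * l₂.real J := by
  rw [← integral_indicator_one hJ, ← integral_indicator_one hJ, ← integral_indicator_one hJ]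
  exact integral_mix h0 h1 ((integrable_const (1 : ℝ)).indicator hJ)
    ((integrable_const (1 : ℝ)).indicator hJ)

end mix

theorem dual_unique {l₁ l₂ : Measure ℂ} [IsProbabilityMeasure l₁] [IsProbabilityMeasure l₂]
    (m1 : ∀ᵐ x ∂l₁, x ∈ Gam) (m2 : ∀ᵐ x ∂l₂, x ∈ Gam) (h1 : ∀ y ∈ Gam, pot l₁ y ≤ rdv Gam)
    (h2 : ∀ y ∈ Gam, pot l₂ y ≤ rdv Gam) {J : Set ℂ} (hJ : MeasurableSet J)
    (hJv : ∀ j, GG j (yy 0) ∉ J) : l₁.real J = l₂.real J := by
  obtain ⟨μ, hp, hμ, hs, lo⟩ := exists_sym_primal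
  have := isProb_mix (p := 1 / 2) (l₁ := l₁) (l₂ := l₂) (by norm_num) (by norm_num)
  have m3 : ∀ᵐ x ∂(mix (1 / 2) l₁ l₂), x ∈ Gam := ae_mix m1 m2
  have e3 := pot_mix (p := 1 / 2) (by norm_num) (by norm_num) m1 m2
  have h3 : ∀ y ∈ Gam, ∀ i, pot ((mix (1 / 2) l₁ l₂).map (GG i)) y ≤ rdv Gam := by
    intro y hy i
    obtain ⟨j, hj, -⟩ := GG_inv i
    rw [pot_map hj, e3]
    linarith [h1 _ (GG_mem_Gam hy j), h2 _ (GG_mem_Gam hy j)]
  have hsum : ∑ _i : Fin 6, rdv Gam = 6 * rdv Gam := by simp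
  have hP : Pair μ (symm (mix (1 / 2) l₁ l₂)) (rdv Gam) := by
    refine ⟨hμ, ae_mem_symm m3, hs, isSym_symm _, lo, fun y hy => ?_, le_rdv_Gam⟩
    rw [pot_symm m3]
    have := Finset.sum_le_sum fun i (_ : i ∈ Finset.univ) => h3 y hy i
    linarith
  have key : ∀ s ∈ lev (symm (mix (1 / 2) l₁ l₂)) (rdv Gam), ∀ j,
      pot l₁ (GG j (yy s)) = rdv Gam ∧ pot l₂ (GG j (yy s)) = rdv Gam := by
    intro s hs j
    have hy := mem_Gam' hs.1
    have e := hs.2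
    rw [pot_symm m3] at e
    have := (Finset.sum_eq_sum_iff_of_le fun i (_ : i ∈ Finset.univ) => h3 _ hy i).mp
      (by linarith)
    obtain ⟨i, -, hi⟩ := GG_inv j
    have e2 := this i (Finset.mem_univ _)
    rw [pot_map hi, e3] at e2
    constructor <;> linarith [h1 _ (GG_mem_Gam hy j), h2 _ (GG_mem_Gam hy j)]
  exact hP.unique ⟨m1, h1, fun s hs j => (key s hs j).1⟩ ⟨m2, h2, fun s hs j => (key s hs j).2⟩
    hJ hJv

/-- An open arc of the side opposite to the vertex `0`. -/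
def arc (u v : ℝ) : Set ℂ := {x | ‖x‖ = 1 ∧ Complex.arg x ∈ Ioo u v}

lemma measurableSet_arc (u v : ℝ) : MeasurableSet (arc u v) :=
  (measurableSet_eq_fun (by fun_prop) measurable_const).inter
    (Complex.measurable_arg measurableSet_Ioo)

lemma exists_arc {ν : Measure ℂ} [IsProbabilityMeasure ν] (hν : ∀ᵐ x ∂ν, x ∈ Gam) (hs : IsSym ν)
    (hi : ∀ y ∈ Gam, pot ν y ≤ rdv Gam) : ∃ u v, 0 < u ∧ u < v ∧ v < π / 3 ∧
      (∀ s ∈ Icc u v, pot ν (yy s) < rdv Gam) ∧ ν (arc u v) ≠ 0 := by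
  have hpi := pi_pos
  obtain ⟨μ, hp, hμ, hsμ, lo⟩ := exists_sym_primal
  have h0 := (Pair.zero_mem ⟨hμ, hν, hsμ, hs, lo, hi, le_rdv_Gam⟩).2
  by_contra hc
  push Not at hc
  let I : Set (ℚ × ℚ) := {q | (0 : ℝ) < q.1 ∧ (q.1 : ℝ) < q.2 ∧ (q.2 : ℝ) < π / 3 ∧
    ∀ s ∈ Icc (q.1 : ℝ) q.2, pot ν (yy s) < rdv Gam}
  have h1 : ∀ᵐ x ∂ν, ∀ q ∈ I, x ∉ arc q.1 q.2 := by
    rw [ae_ball_iff (to_countable I)]
    intro q hq
    exact measure_eq_zero_iff_ae_notMem.mp (hc _ _ hq.1 hq.2.1 hq.2.2.1 hq.2.2.2)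
  have h2 : ∀ᵐ x ∂ν, pot ν x = rdv Gam := by
    filter_upwards [hν, hs.ae_comp h1] with x hx hx'
    refine le_antisymm (hi x hx) ?_
    by_contra hlt
    obtain ⟨j, t, ht, rfl⟩ := hx
    rw [hs.pot_GG, not_le] at hlt
    have ht0 : 0 < t := lt_of_le_of_ne ht.1 fun e => by rw [← e] at hlt; linarith
    have e1 : ∀ᶠ s in 𝓝 t, pot ν (yy s) < rdv Gam :=
      (cont_pot hν).continuousAt.eventually_lt continuousAt_const hlt
    have e2 : ∀ᶠ s in 𝓝 t, 0 < s := lt_mem_nhds ht0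
    have e3 : ∀ᶠ s in 𝓝 t, s < π / 3 := gt_mem_nhds (by linarith [ht.2])
    obtain ⟨δ, hδ, hb⟩ := Metric.eventually_nhds_iff.mp (e1.and (e2.and e3))
    obtain ⟨q1, a1, a2⟩ := exists_rat_btwn (show t - δ < t by linarith)
    obtain ⟨q2, a3, a4⟩ := exists_rat_btwn (show t < t + δ by linarith)
    have hb' : ∀ s ∈ Icc (q1 : ℝ) q2, pot ν (yy s) < rdv Gam ∧ 0 < s ∧ s < π / 3 := fun s hs =>
      hb (by rw [Real.dist_eq, abs_lt]; constructor <;> linarith [hs.1, hs.2])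
    obtain ⟨i, -, hi'⟩ := GG_inv j
    refine hx' i (q1, q2) ⟨(hb' _ ⟨le_rfl, by linarith⟩).2.1, by linarith,
      (hb' _ ⟨by linarith, le_rfl⟩).2.2, fun s hs => (hb' s hs).1⟩ ?_
    rw [hi']
    refine ⟨norm_yy t, ?_⟩
    rw [arg_yy ⟨by linarith, by linarith [ht.2]⟩]
    exact ⟨a2, a3⟩
  have h3 : en ν = rdv Gam := by
    rw [en, integral_congr_ae h2]; simp
  linarith [avg_le_of_pot isCompact_Gam Gam_nonempty hν hi h3, rdv_lt_avg_Gam]

/-- The curve with an open arc removed. -/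
def cut (u v : ℝ) : Set ℂ :=
  yy '' Icc 0 u ∪ (fun s => rho (rho (yy s))) '' Icc 0 (π / 3) ∪
    (fun s => rho (yy s)) '' Icc 0 (π / 3) ∪ yy '' Icc v (π / 3)

variable {u v : ℝ}

lemma c1 : Continuous fun s => rho (yy s) := isometry_rho.continuous.comp continuous_yy
lemma c2 : Continuous fun s => rho (rho (yy s)) := isometry_rho.continuous.comp c1

lemma isCompact_cut : IsCompact (cut u v) :=
  (((isCompact_Icc.image continuous_yy).union (isCompact_Icc.image c2)).union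
    (isCompact_Icc.image c1)).union (isCompact_Icc.image continuous_yy)

lemma isConnected_cut (hu : 0 ≤ u) (hv : v ≤ π / 3) : IsConnected (cut u v) := by
  have hpi : (0 : ℝ) ≤ π / 3 := by positivity
  refine IsConnected.union ⟨yy (π / 3), Or.inr ⟨0, left_mem_Icc.mpr hpi, rho_v1⟩,
      ⟨π / 3, right_mem_Icc.mpr hv, rfl⟩⟩
    (IsConnected.union ⟨0, Or.inr ⟨0, left_mem_Icc.mpr hpi, ?_⟩,
        ⟨π / 3, right_mem_Icc.mpr hpi, rho_v2⟩⟩
      (IsConnected.union ⟨yy 0, ⟨0, left_mem_Icc.mpr hu, rfl⟩,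
          ⟨π / 3, right_mem_Icc.mpr hpi, ?_⟩⟩
        ((isConnected_Icc hu).image _ continuous_yy.continuousOn)
        ((isConnected_Icc hpi).image _ c2.continuousOn))
      ((isConnected_Icc hpi).image _ c1.continuousOn))
    ((isConnected_Icc hv).image _ continuous_yy.continuousOn)
  · simp only [rho_v1, rho_v2]
  · simp only [rho_v2, rho_zero']

lemma cut_subset (hu : u ≤ π / 3) (hv : 0 ≤ v) : cut u v ⊆ Gam := by
  rintro x (((⟨s, hs, rfl⟩ | ⟨s, hs, rfl⟩) | ⟨s, hs, rfl⟩) | ⟨s, hs, rfl⟩)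
  · exact yy_mem_Gam ⟨hs.1, hs.2.trans hu⟩
  · exact GG_mem_Gam (yy_mem_Gam hs) 2
  · exact GG_mem_Gam (yy_mem_Gam hs) 1
  · exact yy_mem_Gam ⟨hv.trans hs.1, hs.2⟩

lemma mem_cut_or {x : ℂ} (hx : x ∈ Gam) : x ∈ cut u v ∨ x ∈ arc u v := by
  have hpi := pi_pos
  have key : ∀ s ∈ Icc 0 (π / 3), yy s ∈ cut u v ∨ yy s ∈ arc u v := by
    intro s hs
    rcases le_or_gt s u with h | h
    · exact Or.inl (Or.inl (Or.inl (Or.inl ⟨s, ⟨hs.1, h⟩, rfl⟩)))
    rcases le_or_gt v s with h' | h'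
    · exact Or.inl (Or.inr ⟨s, ⟨h', hs.2⟩, rfl⟩)
    · refine Or.inr ⟨norm_yy s, ?_⟩
      rw [arg_yy ⟨by linarith [hs.1], by linarith [hs.2]⟩]
      exact ⟨h, h'⟩
  obtain ⟨j, t, ht, rfl⟩ := hx
  have h1 : t ∈ Icc 0 (π / 3) := ⟨ht.1, by linarith [ht.2]⟩
  have h2 : π / 3 - t ∈ Icc 0 (π / 3) := ⟨by linarith [ht.2], by linarith [ht.1]⟩
  fin_cases j
  · exact key t h1
  · exact Or.inl (Or.inl (Or.inr ⟨t, h1, rfl⟩))
  · exact Or.inl (Or.inl (Or.inl (Or.inr ⟨t, h1, rfl⟩)))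
  · have := key _ h2
    rwa [← sg_yy] at this
  · exact Or.inl (Or.inl (Or.inr ⟨_, h2, by simp only [← sg_yy]; rfl⟩))
  · exact Or.inl (Or.inl (Or.inl (Or.inr ⟨_, h2, by simp only [← sg_yy]; rfl⟩)))

lemma dist_yy_lt_one {s t : ℝ} (h : |s - t| < π / 3) : dist (yy t) (yy s) < 1 := by
  have hpi := pi_pos
  rw [abs_lt] at h
  rw [dist_yy]
  have h1 : sin ((s - t) / 2) < 1 / 2 := by
    rw [← sin_pi_div_six]
    exact sin_lt_sin_of_lt_of_le_pi_div_two (by linarith) (by linarith) (by linarith)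
  have h2 : sin (-((s - t) / 2)) < 1 / 2 := by
    rw [← sin_pi_div_six]
    exact sin_lt_sin_of_lt_of_le_pi_div_two (by linarith) (by linarith) (by linarith)
  rw [sin_neg] at h2
  have : |sin ((s - t) / 2)| < 1 / 2 := abs_lt.mpr ⟨by linarith, h1⟩
  linarith

lemma not_mem_arc (hu : 0 < u) (huv : u < v) (hv : v < π / 3) {x : ℂ} (hx : x ∈ cut u v) :
    x ∉ arc u v := by
  have hpi := pi_pos
  rintro ⟨h1, h2⟩
  have e := yy_arg h1
  have d1 : dist x (yy 0) < 1 := by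
    rw [← e]; exact dist_yy_lt_one (abs_lt.mpr ⟨by linarith [h2.2], by linarith [h2.1]⟩)
  have d2 : dist x (yy (π / 3)) < 1 := by
    rw [← e]; exact dist_yy_lt_one (abs_lt.mpr ⟨by linarith [h2.2], by linarith [h2.1]⟩)
  rcases hx with (((⟨s, hs, rfl⟩ | ⟨s, hs, rfl⟩) | ⟨s, hs, rfl⟩) | ⟨s, hs, rfl⟩)
  · rw [arg_yy ⟨by linarith [hs.1], by linarith [hs.2]⟩] at h2
    linarith [hs.2, h2.1]
  · rw [← rho_v1, ← rho_zero', dist_rho, dist_rho, dist_zero_right, norm_yy] at d2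
    exact lt_irrefl _ d2
  · rw [← rho_zero', dist_rho, dist_zero_right, norm_yy] at d1
    exact lt_irrefl _ d1
  · rw [arg_yy ⟨by linarith [hs.1], by linarith [hs.2]⟩] at h2
    linarith [hs.1, h2.2]

lemma v1_mem_cut (hu : 0 ≤ u) : yy 0 ∈ cut u v :=
  Or.inl (Or.inl (Or.inl ⟨0, left_mem_Icc.mpr hu, rfl⟩))

lemma v0_mem_cut : (0 : ℂ) ∈ cut u v :=
  Or.inl (Or.inr ⟨π / 3, right_mem_Icc.mpr (by positivity), rho_v2⟩)

lemma v2_mem_cut : yy (π / 3) ∈ cut u v :=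
  Or.inl (Or.inr ⟨0, left_mem_Icc.mpr (by positivity), rho_v1⟩)

theorem exists_cut : ∃ u v, 0 < u ∧ u < v ∧ v < π / 3 ∧ rdv Gam < rdv (cut u v) := by
  obtain ⟨ν, hp, hν, hs, hi⟩ := exists_sym_dual
  obtain ⟨u, v, hu, huv, hv, hlt, hpos⟩ := exists_arc hν hs hi
  refine ⟨u, v, hu, huv, hv, ?_⟩
  by_contra hc
  push Not at hc
  obtain ⟨ν', hp', hν', hi'⟩ := exists_dual (isCompact_cut (u := u) (v := v)) ⟨_, v0_mem_cut⟩
  have hsub : cut u v ⊆ Gam := cut_subset (by linarith) (by linarith)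
  have m' : ∀ᵐ x ∂ν', x ∈ Gam := hν'.mono fun x hx => hsub hx
  obtain ⟨s0, hs0, hmax⟩ := isCompact_Icc.exists_isMaxOn (nonempty_Icc.mpr huv.le)
    (cont_pot hν).continuousOn
  set δ := rdv Gam - pot ν (yy s0) with hδ
  have hδ0 : 0 < δ := sub_pos.mpr (hlt s0 hs0)
  set p := δ / (δ + 1) with hpp
  have p0 : 0 < p := by positivity
  have p1 : p ≤ 1 := by rw [hpp, div_le_one (by positivity)]; linarith
  have p2 : p * (δ + 1) = δ := by rw [hpp]; field_simp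
  have := isProb_mix (l₁ := ν) (l₂ := ν') p0.le p1
  have h1 := dual_unique (l₂ := mix p ν ν') hν (ae_mix hν m') hi (fun y hy => by
    rw [pot_mix p0.le p1 hν m']
    rcases mem_cut_or (u := u) (v := v) hy with h | h
    · have b1 := hi y hy
      have b2 : pot ν' y ≤ rdv Gam := (hi' y h).trans hc
      nlinarith
    · have b1 : pot ν y ≤ rdv Gam - δ := by
        have := hmax (Ioo_subset_Icc_self h.2)
        simp only [mem_ofPred_eq, yy_arg h.1] at this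
        linarith
      have b2 : pot ν' y ≤ 1 := by
        have : ∫ x, dist x y ∂ν' ≤ ∫ _x, (1 : ℝ) ∂ν' :=
          integral_mono_ae (integrable_dist isCompact_Gam m' y) (integrable_const _)
            (m'.mono fun x hx => dist_le_one hx hy)
        simpa [pot] using this
      nlinarith [le_rdv_Gam]) (measurableSet_arc u v) (fun j => not_mem_arc hu huv hv (by
      fin_cases j <;> simp [GG, rho_v1, rho_v2, sg_v1, rho_zero', v0_mem_cut, v2_mem_cut,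
        v1_mem_cut hu.le]))
  have h2 : ν'.real (arc u v) = 0 := by
    rw [measureReal_eq_zero_iff (measure_ne_top _ _), measure_eq_zero_iff_ae_notMem]
    exact hν'.mono fun x hx => not_mem_arc hu huv hv hx
  rw [real_mix p0.le p1 (measurableSet_arc u v), h2] at h1
  have h3 : ν.real (arc u v) = 0 := by
    have : p * ν.real (arc u v) = 0 := by linarith
    exact (mul_eq_zero.mp this).resolve_left p0.ne'
  exact hpos ((measureReal_eq_zero_iff (measure_ne_top _ _)).mp h3)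

end Pool.Agent.Lib.MP_69e6d0_co
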