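import Pool.Agent.Lib.MP_69e6d0_co.Struct
import Pool.Agent.Lib.MP_69e6d0_co.Proj

/-! Uniqueness of the dual optimal measure away from the vertices. -/

namespace Pool.Agent.Lib.MP_69e6d0_co

open Real Set MeasureTheory Filter Topology Pool.Agent.Lib.MP_55cb2c_co

/-- A dual optimal measure whose potential is extremal on the orbit of `S`. -/
structure Dual (lam : Measure ℂ) (a : ℝ) (S : Set ℝ) : Prop where
  hl : ∀ᵐ x ∂lam, x ∈ Gam
  hi : ∀ y ∈ Gam, pot lam y ≤ a
  eq : ∀ s ∈ S, ∀ j, pot lam (GG j (yy s)) = a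

variable {lam : Measure ℂ} [IsProbabilityMeasure lam] {a : ℝ} {S : Set ℝ}

omit [IsProbabilityMeasure lam] in
lemma Dual.map (h : Dual lam a S) (j : Fin 6) : Dual (lam.map (GG j)) a S := by
  obtain ⟨i, hi, -⟩ := GG_inv j
  refine ⟨ae_mem_map h.hl j, fun y hy => ?_, fun s hs k => ?_⟩
  · rw [pot_map hi]; exact h.hi _ (GG_mem_Gam hy i)
  · obtain ⟨l, hl⟩ := GG_comp i k
    rw [pot_map hi, hl]; exact h.eq s hs l

omit [IsProbabilityMeasure lam] in
lemma Dual.localMax (h : Dual lam a S) {β : ℝ} (hβ : β ∈ S) (h0 : 0 < β) (h1 : β ≤ π / 6) :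
    IsLocalMax (fun s => pot lam (yy s)) β := by
  have : Ioo 0 (π / 3) ∈ 𝓝 β := Ioo_mem_nhds h0 (by linarith [pi_pos])
  filter_upwards [this] with s hs
  rw [show pot lam (yy β) = a from h.eq β hβ 0]
  exact h.hi _ (yy_mem_Gam (Ioo_subset_Icc_self hs))

lemma Dual.mm_real (h : Dual lam a S) {L : ℝ} (hL : L ∈ Icc 0 (π / 6)) (hS : S ⊆ Icc 0 L)
    (h0 : 0 ∈ S) {β : ℝ} (hβ : β ∈ S) :
    (mm lam L).real (Iic β) = a * (1 - cos (β / 2)) / 2 :=
  mm_Iic h.hl hL (hS hβ) (h.eq 0 h0 0) (h.eq β hβ 0)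
    fun h1 => h.localMax hβ h1 ((hS hβ).2.trans hL.2)

noncomputable def HH (L : ℝ) (φ : ℝ → ℝ) (x : ℂ) : ℝ :=
  gg L φ x - (∫ s in Ioc 0 L, sin (s / 2) * φ s) * ((1 - dist x 0) / 4)

lemma integrable_HH (hl : ∀ᵐ x ∂lam, x ∈ Gam) {L : ℝ} (hL : L ∈ Icc 0 (π / 6)) {φ : ℝ → ℝ}
    (hφ : Measurable φ) (hC : ∀ s, |φ s| ≤ 1) : Integrable (HH L φ) lam :=
  (integrable_gg hl hL hφ hC).sub (integrable_of_cont isCompact_Gam hl (by fun_prop))

lemma Dual.integral_HH (h : Dual lam a S) {L : ℝ} (hL : L ∈ Icc 0 (π / 6)) (h0 : 0 ∈ S)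
    {φ : ℝ → ℝ} (hφ : Measurable φ) (hC : ∀ s, |φ s| ≤ 1) :
    ∫ x, HH L φ x ∂lam = ∫ s, φ s ∂(mm lam L) -
      (∫ s in Ioc 0 L, sin (s / 2) * φ s) * ((1 - a) / 4) := by
  have e : pot lam 0 = a := by
    rw [← h.eq 0 h0 2]
    congr 1
    show 0 = rho (rho (yy 0))
    rw [rho_v1, rho_v2]
  unfold HH
  rw [integral_sub (integrable_gg h.hl hL hφ hC)
    (integrable_of_cont isCompact_Gam h.hl (by fun_prop)), integral_mm h.hl hL hφ hC,
    integral_const_mul, integral_div,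
    integral_sub (integrable_const _) (integrable_dist isCompact_Gam h.hl 0), ← e]
  simp [pot]

lemma HH_eq {L : ℝ} {φ : ℝ → ℝ} (hφ : Measurable φ) (hC : ∀ s, |φ s| ≤ 1) (x : ℂ) :
    HH L φ x = (HL L).indicator (fun x => 2 * sin (Complex.arg x / 2) * φ (Complex.arg x)) x +
      ∫ s in Ioc 0 L, sin (s / 2) * kt x s * φ s := by
  have i1 : IntegrableOn (fun s => sin (s / 2) * kk x s * φ s) (Ioc 0 L) :=
    ((continuous_FF x).integrableOn_Ioc).mul_bdd (c := 1) hφ.aestronglyMeasurable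
      (Eventually.of_forall hC)
  have i2 : IntegrableOn (fun s => sin (s / 2) * φ s * ((1 - dist x 0) / 4)) (Ioc 0 L) :=
    (((by fun_prop : Continuous fun s : ℝ => sin (s / 2)).integrableOn_Ioc).mul_bdd (c := 1)
      hφ.aestronglyMeasurable (Eventually.of_forall hC)).mul_const _
  unfold HH gg
  rw [add_sub_assoc, ← integral_mul_const, ← integral_sub i1 i2]
  congr 2
  funext s
  rw [kt, dist_zero_right]; ring

lemma abs_kt_le {L : ℝ} (hL : L ∈ Icc 0 (π / 6)) {φ : ℝ → ℝ} (hC : ∀ s, |φ s| ≤ 1) (x : ℂ) :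
    |∫ s in Ioc 0 L, sin (s / 2) * kt x s * φ s| ≤ KT x := by
  have hc : Continuous fun s => sin (s / 2) * |kt x s| :=
    (by fun_prop : Continuous fun s : ℝ => sin (s / 2)).mul (continuous_kt x).abs
  calc _ ≤ ∫ s in Ioc 0 L, sin (s / 2) * |kt x s| := by
        rw [← Real.norm_eq_abs]
        refine norm_integral_le_of_norm_le hc.integrableOn_Ioc ?_
        filter_upwards [ae_restrict_mem measurableSet_Ioc] with s hs
        have h1 := (half_bounds ⟨hs.1.le, hs.2.trans hL.2⟩).1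
        rw [Real.norm_eq_abs, abs_mul, abs_mul, abs_of_nonneg h1]
        exact mul_le_of_le_one_right (by positivity) (hC s)
    _ ≤ KT x := by
        rw [KT, intervalIntegral.integral_of_le (by positivity)]
        refine setIntegral_mono_set hc.integrableOn_Ioc ?_
          (Ioc_subset_Ioc_right hL.2).eventuallyLE
        filter_upwards [ae_restrict_mem measurableSet_Ioc] with s hs
        have h1 := (half_bounds ⟨hs.1.le, hs.2⟩).1
        positivity

lemma Dual.ae_ne (h : Dual lam a S) (hS : S ⊆ Icc 0 (π / 6)) {Q : Set ℝ} (hQ : Q.Countable)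
    (hQS : ∀ q ∈ Q, q ∈ S ∧ 0 < q) : ∀ᵐ x ∂lam, ∀ j, ∀ q ∈ Q, GG j x ≠ yy q := by
  rw [ae_all_iff]
  intro j
  rw [ae_ball_iff hQ]
  intro q hq
  have h1 := (local_max (h.map j).hl
    ((h.map j).localMax (hQS q hq).1 (hQS q hq).2 (hS (hQS q hq).1).2)).1
  have h2 : ∀ᵐ x ∂(lam.map (GG j)), x ∉ ({yy q} : Set ℂ) := measure_eq_zero_iff_ae_notMem.mp h1
  exact (emb_GG j).ae_map_iff.mp h2

variable {μ ν l₁ l₂ : Measure ℂ} [IsProbabilityMeasure μ] [IsProbabilityMeasure ν]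
  [IsProbabilityMeasure l₁] [IsProbabilityMeasure l₂]

theorem Pair.unique (h : Pair μ ν a) (h1 : Dual l₁ a (lev ν a)) (h2 : Dual l₂ a (lev ν a))
    {J : Set ℂ} (hJ : MeasurableSet J) (hJv : ∀ j, GG j (yy 0) ∉ J) : l₁.real J = l₂.real J := by
  have hpi := pi_pos
  have hS := isCompact_lev (a := a) h.hν
  have h0 := h.zero_mem
  obtain ⟨L, hL, hmax⟩ := hS.exists_isGreatest ⟨0, h0⟩
  have hSL : lev ν a ⊆ Icc 0 L := fun s hs => ⟨hs.1.1, hmax hs⟩
  have hZL : lev μ a ⊆ Icc 0 L := by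
    intro z hz
    refine ⟨hz.1.1, ?_⟩
    by_contra hc
    obtain ⟨L', hL', hfar⟩ := h.exists_far
    have := half_mono hL'.1 hz.1 ((hmax hL').trans (not_le.mp hc).le)
    exact hc (hmax (h.far_mem hz (by linarith)))
  obtain ⟨Q, hQ, hQS, hsel⟩ := exists_selection hS hL hZL fun x hx z hz hxz => h.gap hx hz hxz
  let ρ := l₁ + l₂
  have a1 : l₁ ≪ ρ := Measure.absolutelyContinuous_of_le (Measure.le_add_right le_rfl)
  have a2 : l₂ ≪ ρ := Measure.absolutelyContinuous_of_le (Measure.le_add_left le_rfl)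
  let f : ℂ → ℝ := fun x => (l₁.rnDeriv ρ x).toReal - (l₂.rnDeriv ρ x).toReal
  have hf : Measurable f := (Measure.measurable_rnDeriv _ _).ennreal_toReal.sub
    (Measure.measurable_rnDeriv _ _).ennreal_toReal
  have key : ∀ F : ℂ → ℝ, Integrable F l₁ → Integrable F l₂ →
      Integrable (fun x => f x * F x) ρ ∧
        ∫ x, f x * F x ∂ρ = ∫ x, F x ∂l₁ - ∫ x, F x ∂l₂ := by
    intro F i1 i2
    have j1 := (integrable_toReal_rnDeriv_mul_iff a1).mpr i1
    have j2 := (integrable_toReal_rnDeriv_mul_iff a2).mpr i2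
    simp only [f, sub_mul]
    exact ⟨j1.sub j2, by
      rw [integral_sub j1 j2, integral_toReal_rnDeriv_mul a1, integral_toReal_rnDeriv_mul a2]⟩
  let sgn : ℂ → ℝ := fun x => if 0 ≤ f x then 1 else -1
  have hsgn : Measurable sgn :=
    Measurable.ite (measurableSet_le measurable_const hf) measurable_const measurable_const
  have hsgn1 : ∀ x, |sgn x| ≤ 1 := fun x => by simp only [sgn]; split_ifs <;> simp
  have hsgn2 : ∀ x, f x * sgn x = |f x| := fun x => by
    simp only [sgn]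
    split_ifs with hx
    · rw [abs_of_nonneg hx, mul_one]
    · rw [abs_of_neg (not_le.mp hx)]; ring
  choose inv hinv hinv' using GG_inv
  choose θ hθ hθ1 hθ2 using fun j => hsel (fun s => sgn (GG (inv j) (yy s)))
    (hsgn.comp ((emb_GG _).measurable.comp continuous_yy.measurable)) (fun s => hsgn1 _)
  let φ : Fin 6 → ℝ → ℝ := fun j s => θ j (pr (lev ν a) L s)
  have hpr := (monotone_pr hS hL).measurable
  have hφ : ∀ j, Measurable (φ j) := fun j => (hθ j).comp hpr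
  have hφ1 : ∀ j s, |φ j s| ≤ 1 := fun j s => hθ1 j _
  have iH : ∀ (l : Measure ℂ) [IsProbabilityMeasure l], Dual l a (lev ν a) → ∀ j,
      Integrable (fun x => HH L (φ j) (GG j x)) l := fun l _ hl j =>
    (emb_GG j).integrable_map_iff.mp (integrable_HH (hl.map j).hl hL.1 (hφ j) (hφ1 j))
  have eH : ∀ j, ∫ x, HH L (φ j) (GG j x) ∂l₁ = ∫ x, HH L (φ j) (GG j x) ∂l₂ := by
    intro j
    rw [← (emb_GG j).integral_map, ← (emb_GG j).integral_map,
      (h1.map j).integral_HH hL.1 h0 (hφ j) (hφ1 j), (h2.map j).integral_HH hL.1 h0 (hφ j) (hφ1 j)]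
    congr 1
    have f1 := fin_mm (h1.map j).hl hL.1
    have f2 := fin_mm (h2.map j).hl hL.1
    have := map_pr_eq hS hL (mm_compl (l₁.map (GG j)) L) (mm_compl (l₂.map (GG j)) L)
      fun β hβ => by rw [(h1.map j).mm_real hL.1 hSL h0 hβ, (h2.map j).mm_real hL.1 hSL h0 hβ]
    simp only [φ]
    rw [← integral_map hpr.aemeasurable (hθ j).aestronglyMeasurable,
      ← integral_map hpr.aemeasurable (hθ j).aestronglyMeasurable, this]
  obtain ⟨iΦ, eΦ⟩ := key (fun x => ∑ j, HH L (φ j) (GG j x))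
    (integrable_finsetSum _ fun j _ => iH l₁ h1 j) (integrable_finsetSum _ fun j _ => iH l₂ h2 j)
  rw [integral_finsetSum _ fun j _ => iH l₁ h1 j, integral_finsetSum _ fun j _ => iH l₂ h2 j] at eΦ
  simp only [eH, sub_self] at eΦ
  have hae : ∀ᵐ x ∂ρ, x ∈ Gam ∧ pot μ x = a ∧ ∀ j, ∀ q ∈ Q, GG j x ≠ yy q := by
    rw [ae_add_measure_iff]
    exact ⟨h1.hl.and ((slack h.hμ h1.hl h.lo h1.hi).2.and (h1.ae_ne (fun s hs => hs.1) hQ hQS)),
      h2.hl.and ((slack h.hμ h2.hl h.lo h2.hi).2.and (h2.ae_ne (fun s hs => hs.1) hQ hQS))⟩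
  have hpt : ∀ᵐ x ∂ρ, ∃ c, 0 ≤ c ∧ (x ∈ J → 0 < c) ∧
      |f x| * c ≤ f x * ∑ j, HH L (φ j) (GG j x) := by
    filter_upwards [hae] with x ⟨hx, hxa, hxQ⟩
    obtain ⟨t, ht, ⟨k, hk⟩, e⟩ := osum_of_mem hx
    have b1 : ∀ j, |f x| * ((HL L).indicator (fun x => 2 * sin (Complex.arg x / 2)) (GG j x) -
        KT (GG j x)) ≤ f x * HH L (φ j) (GG j x) := by
      intro j
      rw [HH_eq (hφ j) (hφ1 j), mul_add, mul_sub, sub_eq_add_neg]
      apply add_le_add
      · by_cases hy : GG j x ∈ HL L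
        · rw [indicator_of_mem hy, indicator_of_mem hy]
          have e1 := yy_arg hy.1
          have e2 : φ j (Complex.arg (GG j x)) = sgn x := by
            have := hθ2 j (Complex.arg (GG j x))
              ⟨⟨hy.2.1.le, hy.2.2.trans hL.1.2⟩, by rw [e1, h.sμ.pot_GG, hxa]⟩
              (fun hq => hxQ j _ hq e1.symm)
            rw [e1, hinv'] at this
            exact this
          rw [e2, ← hsgn2]
          exact le_of_eq (by ring)
        · rw [indicator_of_notMem hy, indicator_of_notMem hy, mul_zero, mul_zero]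
      · have := abs_kt_le hL.1 (hφ1 j) (GG j x)
        have h3 := mul_le_mul_of_nonneg_left this (abs_nonneg (f x))
        rw [← abs_mul] at h3
        linarith [neg_abs_le (f x * ∫ s in Ioc 0 L, sin (s / 2) * kt (GG j x) s * φ j s)]
    have b2 := Finset.sum_le_sum fun j (_ : j ∈ Finset.univ) => b1 j
    rw [← Finset.mul_sum, ← Finset.mul_sum, Finset.sum_sub_distrib, ← osum_eq, ← osum_eq, e, e] at b2
    have b3 : ∀ y, 0 ≤ (HL L).indicator (fun x => 2 * sin (Complex.arg x / 2)) y := fun y =>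
      indicator_nonneg (fun x hx => by
        linarith [(half_bounds ⟨hx.2.1.le, hx.2.2.trans hL.1.2⟩).1]) y
    have b4 : (HL L).indicator (fun x => 2 * sin (Complex.arg x / 2)) (yy t) ≤
        osum ((HL L).indicator (fun x => 2 * sin (Complex.arg x / 2))) (yy t) := by
      unfold osum
      linarith [b3 (rho (yy t)), b3 (rho (rho (yy t))), b3 (sg (yy t)), b3 (rho (sg (yy t))),
        b3 (rho (rho (sg (yy t))))]
    rcases ht.1.eq_or_lt with e0 | e0
    · refine ⟨_, ?_, fun hxJ => absurd hxJ (by rw [hk, ← e0]; exact hJv k), b2⟩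
      have := b3 (yy t)
      rw [← e0] at this b4 ⊢
      rw [osum_KT_zero]; linarith
    · have e1 : Complex.arg (yy t) = t := arg_yy ⟨by linarith, by linarith [ht.2]⟩
      have e2 : t ∈ lev μ a := ⟨ht, by rw [← h.sμ.pot_GG k, ← hk, hxa]⟩
      rw [indicator_of_mem (show yy t ∈ HL L from ⟨norm_yy t, by
        rw [e1]; exact ⟨e0, (hZL e2).2⟩⟩), e1] at b4
      have := I5 ht e0
      exact ⟨_, by linarith, fun _ => by linarith, b2⟩
  have hnn : 0 ≤ᵐ[ρ] fun x => f x * ∑ j, HH L (φ j) (GG j x) := by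
    filter_upwards [hpt] with x ⟨c, hc, _, hc'⟩
    exact (mul_nonneg (abs_nonneg _) hc).trans hc'
  have hz := (integral_eq_zero_iff_of_nonneg_ae hnn iΦ).mp eΦ
  obtain ⟨-, eJ⟩ := key (J.indicator 1) ((integrable_const (1 : ℝ)).indicator hJ)
    ((integrable_const (1 : ℝ)).indicator hJ)
  rw [integral_indicator_one hJ, integral_indicator_one hJ] at eJ
  have : ∀ᵐ x ∂ρ, f x * J.indicator 1 x = 0 := by
    filter_upwards [hpt, hz] with x ⟨c, _, hc, hc'⟩ hx
    by_cases hxJ : x ∈ J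
    · have h3 : |f x| * c ≤ 0 := hc'.trans (le_of_eq hx)
      have h4 : |f x| ≤ 0 := by
        by_contra h5
        linarith [mul_pos (not_le.mp h5) (hc hxJ)]
      rw [abs_nonpos_iff.mp h4, zero_mul]
    · rw [indicator_of_notMem hxJ, mul_zero]
  rw [integral_congr_ae this, integral_zero] at eJ
  linarith

end Pool.Agent.Lib.MP_69e6d0_co
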